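import Pool.Agent.H84.B.Targets

/-!
# The averaging statement (module ASYM of MP_02e9fb_an)
-/

open scoped ComplexConjugate InnerProductSpace
open Filter Topology

namespace Pool.Agent.H60.B

open Pool.Agent.H84.B

section Elementary

/-- a complex number in the unit disc at distance `2` from `-1` is `1` -/
lemma eq_one_of_norm {x : ℂ} (hx : ‖x‖ ≤ 1) (h : 2 ≤ ‖1 + x‖) : x = 1 := by
  have h1 : ‖1 + x‖ ^ 2 = (1 + x.re) ^ 2 + x.im ^ 2 := by
    rw [← Complex.normSq_eq_norm_sq, Complex.normSq_apply]; simp; ring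
  have h2 : ‖x‖ ^ 2 = x.re ^ 2 + x.im ^ 2 := by
    rw [← Complex.normSq_eq_norm_sq, Complex.normSq_apply]; ring
  have h3 : ‖x‖ ^ 2 ≤ 1 := by nlinarith [norm_nonneg x]
  have h4 : 4 ≤ ‖1 + x‖ ^ 2 := by nlinarith
  have h5 : 1 ≤ x.re := by nlinarith
  have h6 : x.re = 1 := by nlinarith [sq_nonneg x.im, sq_nonneg (x.re - 1)]
  have h7 : x.im = 0 := by
    have : x.im ^ 2 ≤ 0 := by rw [h6] at h2; nlinarith
    nlinarith [sq_nonneg x.im, pow_eq_zero_iff (n := 2) (by norm_num) |>.mp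
      (le_antisymm this (sq_nonneg x.im))]
  exact Complex.ext (by simp [h6]) (by simp [h7])

/-- an average of numbers in the unit disc, one of them `1` and another one not, is of norm `< 1` -/
lemma avg_lt_one {I : Type} [Fintype I] (x : I → ℂ) (i0 : I) (h0 : x i0 = 1)
    (hx : ∀ i, ‖x i‖ ≤ 1) (j : I) (hj : x j ≠ 1) :
    ‖(1 / (Fintype.card I : ℂ)) * ∑ i, x i‖ < 1 := by
  classical
  have hij : i0 ≠ j := by rintro rfl; exact hj h0
  have hc : 2 ≤ Fintype.card I := by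
    have : 1 < Fintype.card I := Fintype.one_lt_card_iff.2 ⟨i0, j, hij⟩
    omega
  have hs : ∑ i, x i = (1 + x j) + ∑ i ∈ (Finset.univ.erase i0).erase j, x i := by
    rw [← Finset.add_sum_erase _ _ (Finset.mem_univ i0), h0,
      ← Finset.add_sum_erase (Finset.univ.erase i0) x (Finset.mem_erase.2 ⟨hij.symm, Finset.mem_univ j⟩)]
    ring
  have h2 : ‖1 + x j‖ < 2 := by
    by_contra h
    exact hj (eq_one_of_norm (hx j) (not_lt.1 h))
  have hcard : (((Finset.univ.erase i0).erase j).card : ℝ) = (Fintype.card I : ℝ) - 2 := by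
    have : ((Finset.univ.erase i0).erase j).card = Fintype.card I - 2 := by
      rw [Finset.card_erase_of_mem (Finset.mem_erase.2 ⟨hij.symm, Finset.mem_univ j⟩),
        Finset.card_erase_of_mem (Finset.mem_univ i0), Finset.card_univ]
      omega
    rw [this, Nat.cast_sub hc]; norm_num
  have h3 : ‖∑ i ∈ (Finset.univ.erase i0).erase j, x i‖ ≤ (Fintype.card I : ℝ) - 2 := by
    calc ‖∑ i ∈ (Finset.univ.erase i0).erase j, x i‖
        ≤ ∑ i ∈ (Finset.univ.erase i0).erase j, ‖x i‖ := norm_sum_le _ _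
      _ ≤ ∑ i ∈ (Finset.univ.erase i0).erase j, (1 : ℝ) := Finset.sum_le_sum fun i _ => hx i
      _ = _ := by rw [Finset.sum_const, nsmul_eq_mul, mul_one, hcard]
  have h4 : ‖∑ i, x i‖ < (Fintype.card I : ℝ) := by
    rw [hs]
    calc _ ≤ ‖1 + x j‖ + ‖∑ i ∈ (Finset.univ.erase i0).erase j, x i‖ := norm_add_le _ _
      _ < 2 + ((Fintype.card I : ℝ) - 2) := by linarith
      _ = _ := by ring
  have hpos : (0 : ℝ) < Fintype.card I := by positivity
  rw [norm_mul, norm_div, norm_one, Complex.norm_natCast, one_div, inv_mul_lt_iff₀ hpos, mul_one]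
  exact h4

lemma avg_le_one {I : Type} [Fintype I] (x : I → ℂ) (hx : ∀ i, ‖x i‖ ≤ 1) :
    ‖(1 / (Fintype.card I : ℂ)) * ∑ i, x i‖ ≤ 1 := by
  rcases Nat.eq_zero_or_pos (Fintype.card I) with h | h
  · simp [h]
  · have hpos : (0 : ℝ) < Fintype.card I := by exact_mod_cast h
    rw [norm_mul, norm_div, norm_one, Complex.norm_natCast, one_div, inv_mul_le_iff₀ hpos, mul_one]
    calc ‖∑ i, x i‖ ≤ ∑ i, ‖x i‖ := norm_sum_le _ _
      _ ≤ ∑ i : I, (1 : ℝ) := Finset.sum_le_sum fun i _ => hx i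
      _ = _ := by simp

/-- detection of a residue class by roots of unity -/
lemma detect {p : ℕ} (hp : p.Prime) {ω : ℂ} (hω : IsPrimitiveRoot ω p) (t : ℕ) :
    (1 / (p : ℂ)) * ∑ j ∈ Finset.range p, (ω ^ j) ^ (p - 1) * (ω ^ j) ^ t
      = if t ≡ 1 [MOD p] then 1 else 0 := by
  have hp0 : (p : ℂ) ≠ 0 := by exact_mod_cast hp.ne_zero
  have hterm : ∀ j, (ω ^ j) ^ (p - 1) * (ω ^ j) ^ t = (ω ^ (p - 1 + t)) ^ j := by
    intro j
    rw [← pow_add, ← pow_mul, ← pow_mul, mul_comm]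
  simp only [hterm]
  have hiff : t ≡ 1 [MOD p] ↔ ω ^ (p - 1 + t) = 1 := by
    rw [hω.pow_eq_one_iff_dvd]
    have h1 : 1 ≤ p := hp.one_le
    constructor
    · intro h
      have h2 : p - 1 + t ≡ p - 1 + 1 [MOD p] := Nat.ModEq.add_left _ h
      rw [Nat.sub_add_cancel h1] at h2
      exact (Nat.modEq_zero_iff_dvd).1 (h2.trans (by simp [Nat.ModEq]))
    · intro h
      have h2 : p - 1 + t ≡ p - 1 + 1 [MOD p] := by
        rw [Nat.sub_add_cancel h1]
        exact ((Nat.modEq_zero_iff_dvd).2 h).trans (by simp [Nat.ModEq])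
      exact Nat.ModEq.add_left_cancel' _ h2
  by_cases h : t ≡ 1 [MOD p]
  · rw [if_pos h, hiff.1 h]
    simp only [one_pow, Finset.sum_const, Finset.card_range, nsmul_eq_mul, mul_one]
    field_simp
  · rw [if_neg h, geom_sum_eq (fun h' => h (hiff.2 h'))]
    have : (ω ^ (p - 1 + t)) ^ p = 1 := by
      rw [← pow_mul, mul_comm, pow_mul, hω.pow_eq_one, one_pow]
    rw [this]; simp

end Elementary

section Words

variable {Λ : Type} [CommRing Λ] {A : Type} [CommRing A] [StarRing A] [Algebra ℂ A]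
    [StarModule ℂ A] {H : Type} [NormedAddCommGroup H] [InnerProductSpace ℂ H] [CompleteSpace H]

lemma tr_one (S : Sys Λ A H) : S.tr 1 = 1 := by
  rw [Sys.tr, inner_self_eq_norm_sq_to_K, S.norm_one]; simp

lemma chr_one (S : Sys Λ A H) (k1 k2 : Λ) (g : Y Λ) : chr S k1 k2 g (1, 1) = 1 := by
  simp [chr, lam]

lemma adm_zero {p : ℕ} (ρ : Λ →+* ZMod p) : Adm ρ (0 : Y Λ) := by
  intro i; left; simp

lemma units_zero {p : ℕ} (ρ : Λ →+* ZMod p) : units ρ (0 : Y Λ) = 0 := by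
  simp [units]

/-- realisation of a word by a sum of disjoint copies -/
lemma exists_word (hcop : T_copies) (hadm : T_adm) (hchr : T_CHR) (S : Sys Λ A H) (p : ℕ)
    [Fact p.Prime] (ρ : Λ →+* ZMod p) (k1 k2 : Λ) (B : Finset ℕ) (L : List (Y Λ))
    (hL : ∀ b ∈ L, Adm ρ b) :
    ∃ y : Y Λ, Off y B ∧ Adm ρ y ∧ units ρ y = (L.map (units ρ)).sum ∧
      ∀ P : A × A, S.IsEig P.1 → S.IsEig P.2 →
        S.tr (chr S k1 k2 y P) = (L.map (fun b => S.tr (chr S k1 k2 b P))).prod := by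
  classical
  obtain ⟨a1, a2, a3, a4, -, -, -⟩ := hadm Λ p ρ
  induction L with
  | nil =>
    refine ⟨0, ?_, adm_zero ρ, by simp [units_zero], ?_⟩
    · simp [Off]
    · intro P h1 h2
      obtain ⟨-, -, -, -, c5, -, -, -⟩ := hchr Λ A H S k1 k2 P h1 h2
      rw [c5, tr_one]; simp
  | cons b L ih =>
    obtain ⟨y, hy1, hy2, hy3, hy4⟩ := ih (fun b hb => hL b (List.mem_cons_of_mem _ hb))
    obtain ⟨c, hc1, hc2, -⟩ := hcop Λ b (B ∪ y.1.support) 1
    have hc1 : IsCopy b (c 0) := hc1 0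
    have hc2 : Off (c 0) (B ∪ y.1.support) := hc2 0
    have hcB : Off (c 0) B := Disjoint.mono_right Finset.subset_union_left hc2
    have hcy : Dsj (c 0) y := Disjoint.mono_right Finset.subset_union_right hc2
    obtain ⟨σ, hσ⟩ := hc1
    have hadmc : Adm ρ (c 0) := by rw [hσ]; exact (a1 σ b).2 (hL b List.mem_cons_self)
    have huc : units ρ (c 0) = units ρ b := by rw [hσ]; exact a2 σ b
    refine ⟨c 0 + y, ?_, a3 _ _ hcy hadmc hy2, ?_, ?_⟩
    · have : ((c 0 + y : Y Λ)).1.support ⊆ (c 0).1.support ∪ y.1.support := by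
        exact Finsupp.support_add
      exact Disjoint.mono_left this (Finset.disjoint_union_left.2 ⟨hcB, hy1⟩)
    · rw [a4 _ _ hcy, huc, hy3]; simp
    · intro P h1 h2
      obtain ⟨-, -, -, -, -, -, c7, c8⟩ := hchr Λ A H S k1 k2 P h1 h2
      rw [c7 _ _ hcy, c8 b (c 0) ⟨σ, hσ⟩, hy4 P h1 h2]; simp

/-- the trace of a product of blocks with trace one -/
lemma tr_hh (hhh : T_hh) (hchr : T_CHR) (S : Sys Λ A H) (p : ℕ) (β : ℕ → Λ) (k1 k2 : Λ)
    (P : A × A) (h1 : S.IsEig P.1) (h2 : S.IsEig P.2) (m : ℕ)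
    (hb : ∀ l < m, S.tr (chr S k1 k2 (Dblk p (β l) 0) P) = 1) :
    S.tr (chr S k1 k2 (hh p β 0 m) P) = 1 := by
  obtain ⟨-, -, -, -, -, -, -, -, -, -, e11, e12, e13, e14⟩ := hhh Λ
  obtain ⟨-, -, -, -, c5, -, c7, c8⟩ := hchr Λ A H S k1 k2 P h1 h2
  induction m with
  | zero =>
    have : hh p β 0 0 = 0 := by simp [hh]
    rw [this, c5, tr_one]
  | succ m ih =>
    have hd : Dsj (hh p β 0 m) (Dblk p (β m) (0 + (p + 1) * m)) := by
      rw [Dsj, Finset.disjoint_left]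
      intro i hi hi'
      have h3 := e13 p β 0 m i (by simpa using hi)
      have h4 := e12 p (β m) (0 + (p + 1) * m) i (by simpa using hi')
      omega
    have hcopy : IsCopy (Dblk p (β m) 0) (Dblk p (β m) (0 + (p + 1) * m)) := by
      have := e11 p (fun _ => β m) (0 + (p + 1) * m) 1
      simpa [hh] using this
    rw [e14, c7 _ _ hd, ih (fun l hl => hb l (by omega)), one_mul, c8 _ _ hcopy]
    exact hb m (by omega)

/-- the alphabet -/
lemma exists_alphabet (hadm : T_adm) (hchr : T_CHR) (hwit : T_WIT) (S : Sys Λ A H) (p : ℕ)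
    [Fact p.Prime] (ρ : Λ →+* ZMod p) (β : ℕ → Λ) (k1 k2 : Λ) (Ps : Finset (A × A)) (M : ℕ)
    (hp2 : p ≠ 2) (hβ : ∀ l, ρ (β l) = 1) (hk1 : IsUnit k1) (hk2 : IsUnit k2)
    (hk : IsUnit (k1 - k2)) (hPs : ∀ P ∈ Ps, S.IsEig P.1 ∧ S.IsEig P.2)
    {ω : ℂ} (hω : IsPrimitiveRoot ω p) :
    ∃ A0 : Finset (Y Λ), 0 ∈ A0 ∧ (∀ b ∈ A0, Adm ρ b) ∧ (∀ l < M, Dblk p (β l) 0 ∈ A0) ∧
      ∀ P ∈ Ps, ∀ j, 0 < j → j < p →
        ∃ b ∈ A0, (ω ^ j) ^ (units ρ b / p) * S.tr (chr S k1 k2 b P) ≠ 1 := by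
  classical
  have hp : p.Prime := Fact.out
  obtain ⟨-, -, -, -, a5, -, -⟩ := hadm Λ p ρ
  have key : ∀ (P : A × A) (j : ℕ), ∃ b : Y Λ, Adm ρ b ∧ (P ∈ Ps → 0 < j → j < p →
      (ω ^ j) ^ (units ρ b / p) * S.tr (chr S k1 k2 b P) ≠ 1) := by
    intro P j
    by_cases hc : P ∈ Ps ∧ 0 < j ∧ j < p
    · obtain ⟨hP, hj0, hjp⟩ := hc
      obtain ⟨h1, h2⟩ := hPs P hP
      obtain ⟨-, -, -, c4, -, -, -, -⟩ := hchr Λ A H S k1 k2 P h1 h2
      have hωn : ‖ω ^ j‖ = 1 := by rw [norm_pow, hω.norm'_eq_one hp.ne_zero, one_pow]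
      have hω0 : ω ^ j ≠ 0 := by
        intro h; rw [h] at hωn; simp at hωn
      have hne : (ω ^ j)⁻¹ ≠ 1 := by
        intro h
        rw [inv_eq_one] at h
        exact hω.pow_ne_one_of_pos_of_lt hj0.ne' hjp h
      have hw := mt (hwit Λ A H S p ρ k1 k2 P (ω ^ j)⁻¹ hp2 hk1 hk2 hk h1 h2
        (by rw [norm_inv, hωn, inv_one])) hne
      push Not at hw
      obtain ⟨b, t, hb1, hb2, hb3⟩ := hw
      refine ⟨b, hb1, fun _ _ _ h => hb3 ?_⟩
      have ht : units ρ b / p = t := by rw [hb2]; exact Nat.mul_div_cancel_left _ hp.pos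
      rw [ht] at h
      have htr : S.tr (chr S k1 k2 b P) = ((ω ^ j)⁻¹) ^ t := by
        rw [inv_pow]
        exact eq_inv_of_mul_eq_one_right h
      rw [← htr]
      apply c4
      rw [htr, norm_pow, norm_inv, hωn, inv_one, one_pow]
    · exact ⟨0, adm_zero ρ, fun h1 h2 h3 => absurd ⟨h1, h2, h3⟩ hc⟩
  choose b hb1 hb2 using key
  refine ⟨{0} ∪ (Finset.range M).image (fun l => Dblk p (β l) 0) ∪
    (Ps ×ˢ Finset.range p).image (fun x => b x.1 x.2), ?_, ?_, ?_, ?_⟩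
  · simp
  · intro c hc
    simp only [Finset.mem_union, Finset.mem_singleton, Finset.mem_image, Finset.mem_range] at hc
    rcases hc with (rfl | ⟨l, -, rfl⟩) | ⟨x, -, rfl⟩
    · exact adm_zero ρ
    · exact (a5 (β l) 0 (hβ l)).1
    · exact hb1 _ _
  · intro l hl
    simp only [Finset.mem_union, Finset.mem_image, Finset.mem_range]
    exact Or.inl (Or.inr ⟨l, hl, rfl⟩)
  · intro P hP j hj0 hjp
    refine ⟨b P j, ?_, hb2 P j hP hj0 hjp⟩
    simp only [Finset.mem_union, Finset.mem_image]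
    exact Or.inr ⟨(P, j), Finset.mem_product.2 ⟨hP, Finset.mem_range.2 hjp⟩, rfl⟩

/-- the average over all words -/
lemma avg_words {I : Type} [Fintype I] (N : ℕ) (x : I → ℂ) (c : ℂ) :
    (1 / (Fintype.card (Fin N → I) : ℂ)) * ∑ w : Fin N → I, c * ∏ i, x (w i)
      = c * ((1 / (Fintype.card I : ℂ)) * ∑ i, x i) ^ N := by
  rw [← Finset.mul_sum, mul_pow, Fintype.sum_pow, Fintype.card_fun, Fintype.card_fin,
    Nat.cast_pow, div_pow, one_pow]
  ring

end Words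

open Classical in
/-- The averaging statement. -/
theorem asym (hcop : T_copies) (hhh : T_hh) (hadm : T_adm) (hchr : T_CHR) (hwit : T_WIT) :
    T_ASYM := by
  intro Λ _ A _ _ _ _ H _ _ _ S p _ ρ β k1 k2 Ps m m' ε hp2 hβ hk1 hk2 hk hPs hε
  have hp : p.Prime := Fact.out
  obtain ⟨a1, a2, a3, a4, a5, a6, a7⟩ := hadm Λ p ρ
  obtain ⟨ω, hω⟩ : ∃ ω : ℂ, IsPrimitiveRoot ω p := ⟨_, Complex.isPrimitiveRoot_exp p hp.ne_zero⟩
  have hωn : ∀ j, ‖ω ^ j‖ = 1 := fun j => by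
    rw [norm_pow, hω.norm'_eq_one hp.ne_zero, one_pow]
  obtain ⟨A0, h00, hA1, hA2, hA3⟩ := exists_alphabet hadm hchr hwit S p ρ β k1 k2 Ps (max m m')
    hp2 hβ.1 hk1 hk2 hk hPs hω
  -- the letters
  set x : A × A → ℕ → A0 → ℂ := fun P j b =>
    (ω ^ j) ^ (units ρ b.1 / p) * S.tr (chr S k1 k2 b.1 P) with hx
  set s : A × A → ℕ → ℂ := fun P j => (1 / (Fintype.card A0 : ℂ)) * ∑ b, x P j b with hs
  have hxn : ∀ P ∈ Ps, ∀ j b, ‖x P j b‖ ≤ 1 := by
    intro P hP j b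
    obtain ⟨h1, h2⟩ := hPs P hP
    obtain ⟨-, -, c3, -, -, -, -, -⟩ := hchr Λ A H S k1 k2 P h1 h2
    rw [hx]
    simp only
    rw [norm_mul, norm_pow, hωn, one_pow, one_mul]
    exact c3 _
  have hx0 : ∀ P ∈ Ps, ∀ j, x P j ⟨0, h00⟩ = 1 := by
    intro P hP j
    obtain ⟨h1, h2⟩ := hPs P hP
    obtain ⟨-, -, -, -, c5, -, -, -⟩ := hchr Λ A H S k1 k2 P h1 h2
    rw [hx]
    simp only
    rw [units_zero, c5, tr_one]; simp
  have hsn : ∀ P ∈ Ps, ∀ j, ‖s P j‖ ≤ 1 := fun P hP j => avg_le_one _ (hxn P hP j)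
  have hslt : ∀ P ∈ Ps, ∀ j, (∃ b, x P j b ≠ 1) → ‖s P j‖ < 1 := by
    rintro P hP j ⟨b, hb⟩
    exact avg_lt_one _ ⟨0, h00⟩ (hx0 P hP j) (hxn P hP j) b hb
  -- the length of the words
  obtain ⟨N, hN⟩ : ∃ N : ℕ, ∀ P ∈ Ps, ∀ j ∈ Finset.range p, ‖s P j‖ < 1 → ‖s P j‖ ^ N ≤ ε := by
    have : ∀ᶠ N : ℕ in atTop, ∀ P ∈ Ps, ∀ j ∈ Finset.range p, ‖s P j‖ < 1 → ‖s P j‖ ^ N ≤ ε := by
      rw [Filter.eventually_all_finset]
      intro P _
      rw [Filter.eventually_all_finset]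
      intro j _
      by_cases h : ‖s P j‖ < 1
      · have := tendsto_pow_atTop_nhds_zero_of_lt_one (norm_nonneg (s P j)) h
        filter_upwards [this.eventually (ge_mem_nhds hε)] with N hN _ using hN
      · exact Filter.Eventually.of_forall fun N h' => absurd h' h
    exact this.exists
  -- g and h
  set g : Y Λ := hh p β 0 m with hg
  obtain ⟨hc, hhc1, hhc2, -⟩ := hcop Λ (hh p β 0 m') g.1.support 1
  set h : Y Λ := hc 0 with hh'
  have hcopyh : IsCopy (hh p β 0 m') h := hhc1 0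
  have hgh : Dsj g h := (hhc2 0 : Disjoint (hc 0).1.support g.1.support).symm
  have hadmg : Adm ρ g := (a6 β 0 m hβ.1).1
  have hug : units ρ g = p * m := (a6 β 0 m hβ.1).2
  obtain ⟨σ, hσ⟩ := hcopyh
  have hadmh : Adm ρ h := by rw [hσ]; exact (a1 σ _).2 (a6 β 0 m' hβ.1).1
  have huh : units ρ h = p * m' := by rw [hσ, a2]; exact (a6 β 0 m' hβ.1).2
  have hcopyh : IsCopy (hh p β 0 m') h := ⟨σ, hσ⟩
  -- realisation of the words
  have hw : ∀ w : Fin N → A0, ∃ y : Y Λ, Off y (g.1.support ∪ h.1.support) ∧ Adm ρ y ∧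
      units ρ y = ∑ i, units ρ (w i).1 ∧
      ∀ P : A × A, S.IsEig P.1 → S.IsEig P.2 →
        S.tr (chr S k1 k2 y P) = ∏ i, S.tr (chr S k1 k2 (w i).1 P) := by
    intro w
    obtain ⟨y, hy1, hy2, hy3, hy4⟩ := exists_word hcop hadm hchr S p ρ k1 k2
      (g.1.support ∪ h.1.support) (List.ofFn (fun i => (w i).1)) (by
        intro b hb
        rw [List.mem_ofFn] at hb
        obtain ⟨i, rfl⟩ := hb
        exact hA1 _ (w i).2)
    refine ⟨y, hy1, hy2, ?_, ?_⟩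
    · rw [hy3, List.map_ofFn, List.sum_ofFn]; rfl
    · intro P h1 h2
      rw [hy4 P h1 h2, List.map_ofFn, List.prod_ofFn]; rfl
  choose yw hyw1 hyw2 hyw3 hyw4 using hw
  have hgy : ∀ w, Dsj g (yw w) := fun w =>
    (Disjoint.mono_right Finset.subset_union_left (hyw1 w)).symm
  have hhy : ∀ w, Dsj h (yw w) := fun w =>
    (Disjoint.mono_right Finset.subset_union_right (hyw1 w)).symm
  have hghy : ∀ w, Dsj (g + h) (yw w) := by
    intro w
    have : ((g + h : Y Λ)).1.support ⊆ g.1.support ∪ h.1.support := Finsupp.support_add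
    exact Disjoint.mono_left this (hyw1 w).symm
  have hadmw : ∀ w, Adm ρ (g + h + yw w) := fun w =>
    a3 _ _ (hghy w) (a3 _ _ hgh hadmg hadmh) (hyw2 w)
  set tw : (Fin N → A0) → ℕ := fun w => m + m' + ∑ i, units ρ (w i).1 / p with htw
  have hunits : ∀ w, units ρ (g + h + yw w) = p * tw w := by
    intro w
    rw [a4 _ _ (hghy w), a4 _ _ hgh, hug, huh, hyw3, htw]
    simp only
    rw [mul_add, mul_add, Finset.mul_sum]
    congr 1
    refine Finset.sum_congr rfl fun i _ => ?_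
    exact (Nat.mul_div_cancel' (a7 _ (hA1 _ (w i).2))).symm
  -- the trace formula
  have htr : ∀ P ∈ Ps, ∀ w, S.tr (chr S k1 k2 (g + h + yw w) P)
      = S.tr (chr S k1 k2 g P) * S.tr (chr S k1 k2 h P) *
        ∏ i, S.tr (chr S k1 k2 (w i).1 P) := by
    intro P hP w
    obtain ⟨h1, h2⟩ := hPs P hP
    obtain ⟨-, -, -, -, -, -, c7, -⟩ := hchr Λ A H S k1 k2 P h1 h2
    rw [c7 _ _ (hghy w), c7 _ _ hgh, hyw4 w P h1 h2]
  set E : A × A → ℕ → ℂ := fun P j =>
    ((ω ^ j) ^ (m + m') * (S.tr (chr S k1 k2 g P) * S.tr (chr S k1 k2 h P))) * s P j ^ N with hE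
  have hmain : ∀ P ∈ Ps, ∀ j, (1 / (Fintype.card (Fin N → A0) : ℂ)) *
      ∑ w : Fin N → A0, (ω ^ j) ^ tw w * S.tr (chr S k1 k2 (g + h + yw w) P) = E P j := by
    intro P hP j
    rw [hE]
    simp only
    rw [hs]
    simp only
    rw [← avg_words]
    congr 1
    refine Finset.sum_congr rfl fun w _ => ?_
    rw [htr P hP w, htw, hx]
    simp only
    rw [Finset.prod_mul_distrib, Finset.prod_pow_eq_pow_sum, pow_add]
    ring
  -- the size of `E`
  have htrn : ∀ P ∈ Ps, ∀ y, ‖S.tr (chr S k1 k2 y P)‖ ≤ 1 := by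
    intro P hP y
    obtain ⟨h1, h2⟩ := hPs P hP
    obtain ⟨-, -, c3, -, -, -, -, -⟩ := hchr Λ A H S k1 k2 P h1 h2
    exact c3 y
  have hEn : ∀ P ∈ Ps, ∀ j, ‖E P j‖ ≤ ‖s P j‖ ^ N := by
    intro P hP j
    rw [hE]
    simp only
    rw [norm_mul, norm_mul, norm_mul, norm_pow, hωn, one_pow, one_mul, norm_pow]
    have h3 := htrn P hP g
    have h4 := htrn P hP h
    have : ‖S.tr (chr S k1 k2 g P)‖ * ‖S.tr (chr S k1 k2 h P)‖ ≤ 1 :=
      mul_le_one₀ h3 (norm_nonneg _) h4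
    calc _ ≤ 1 * ‖s P j‖ ^ N := by gcongr
      _ = _ := one_mul _
  set Tr : Finset (A × A) := Ps.filter (fun P => ∀ b ∈ A0, S.tr (chr S k1 k2 b P) = 1) with hTr
  have hE1 : ∀ P ∈ Ps, ∀ j ∈ Finset.range p,
      ‖E P j - (if j = 0 ∧ P ∈ Tr then 1 else 0)‖ ≤ ε := by
    intro P hP j hj
    by_cases hcase : j = 0 ∧ P ∈ Tr
    · obtain ⟨rfl, hPT⟩ := hcase
      rw [if_pos ⟨rfl, hPT⟩]
      have hall := (Finset.mem_filter.1 hPT).2
      obtain ⟨h1, h2⟩ := hPs P hP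
      obtain ⟨-, -, -, -, -, -, -, c8⟩ := hchr Λ A H S k1 k2 P h1 h2
      have hG : S.tr (chr S k1 k2 g P) = 1 := tr_hh hhh hchr S p β k1 k2 P h1 h2 m
        (fun l hl => hall _ (hA2 l (lt_of_lt_of_le hl (le_max_left _ _))))
      have hH : S.tr (chr S k1 k2 h P) = 1 := by
        rw [c8 _ _ hcopyh]
        exact tr_hh hhh hchr S p β k1 k2 P h1 h2 m'
          (fun l hl => hall _ (hA2 l (lt_of_lt_of_le hl (le_max_right _ _))))
      have hs1 : s P 0 = 1 := by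
        rw [hs]
        simp only
        have hx1 : ∀ b, x P 0 b = 1 := by
          intro b
          rw [hx]
          simp only
          rw [hall b.1 b.2]; simp
        rw [Finset.sum_congr rfl fun b _ => hx1 b]
        have : (Fintype.card A0 : ℂ) ≠ 0 := by
          haveI : Nonempty A0 := ⟨⟨0, h00⟩⟩
          exact_mod_cast Fintype.card_ne_zero
        rw [Finset.sum_const, Finset.card_univ, nsmul_eq_mul, mul_one]
        field_simp
      have : E P 0 = 1 := by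
        rw [hE]
        simp only
        rw [hG, hH, hs1]; simp
      rw [this, sub_self, norm_zero]
      exact hε.le
    · rw [if_neg hcase, sub_zero]
      refine (hEn P hP j).trans (hN P hP j hj (hslt P hP j ?_))
      by_cases hj0 : j = 0
      · subst hj0
        have hPT : P ∉ Tr := fun h => hcase ⟨rfl, h⟩
        rw [hTr, Finset.mem_filter] at hPT
        push Not at hPT
        obtain ⟨b, hb, hb'⟩ := hPT hP
        refine ⟨⟨b, hb⟩, ?_⟩
        rw [hx]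
        simpa using hb'
      · obtain ⟨b, hb, hb'⟩ := hA3 P hP j (Nat.pos_of_ne_zero hj0) (Finset.mem_range.1 hj)
        exact ⟨⟨b, hb⟩, hb'⟩
  -- the index set
  set e := (Fintype.equivFin (Fin N → A0)).symm with he
  haveI : Nonempty A0 := ⟨⟨0, h00⟩⟩
  have hp0 : (p : ℂ) ≠ 0 := by exact_mod_cast hp.ne_zero
  refine ⟨Fintype.card (Fin N → A0), g, h, fun j => yw (e j), fun j => tw (e j), Tr,
    Fintype.card_pos, ⟨1, ?_⟩, hcopyh, hgh, fun j => ⟨hgy _, hhy _⟩,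
    fun j => ⟨hadmw _, hunits _⟩, Finset.filter_subset _ _, ?_, ?_, ?_⟩
  · obtain ⟨-, -, -, -, e5, -⟩ := hhh Λ
    rw [e5]
  · intro h11
    rw [hTr, Finset.mem_filter]
    refine ⟨h11, fun b _ => ?_⟩
    rw [chr_one, tr_one]
  · intro P hP
    have h1 : ∑ j, S.tr (chr S k1 k2 (g + h + yw (e j)) P)
        = ∑ w, S.tr (chr S k1 k2 (g + h + yw w) P) :=
      e.sum_comp (fun w => S.tr (chr S k1 k2 (g + h + yw w) P))
    rw [h1]
    have h2 := hmain P hP 0
    simp only [pow_zero, one_pow, one_mul] at h2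
    rw [h2]
    have h3 := hE1 P hP 0 (Finset.mem_range.2 hp.pos)
    simpa using h3
  · intro P hP
    have h1 : ∑ j ∈ Finset.univ.filter (fun j => tw (e j) ≡ 1 [MOD p]),
          S.tr (chr S k1 k2 (g + h + yw (e j)) P)
        = ∑ w, (if tw w ≡ 1 [MOD p] then 1 else 0) * S.tr (chr S k1 k2 (g + h + yw w) P) := by
      rw [← e.sum_comp (fun w => (if tw w ≡ 1 [MOD p] then (1 : ℂ) else 0) *
        S.tr (chr S k1 k2 (g + h + yw w) P)), Finset.sum_filter]
      refine Finset.sum_congr rfl fun j _ => ?_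
      split_ifs <;> simp
    have h2 : (1 / (Fintype.card (Fin N → A0) : ℂ)) *
          ∑ w, (if tw w ≡ 1 [MOD p] then 1 else 0) * S.tr (chr S k1 k2 (g + h + yw w) P)
        = (1 / (p : ℂ)) * ∑ j ∈ Finset.range p, (ω ^ j) ^ (p - 1) * E P j := by
      have h3 : ∀ w, (if tw w ≡ 1 [MOD p] then 1 else 0) * S.tr (chr S k1 k2 (g + h + yw w) P)
          = ∑ j ∈ Finset.range p, (1 / (p : ℂ)) * (ω ^ j) ^ (p - 1) *
            ((ω ^ j) ^ tw w * S.tr (chr S k1 k2 (g + h + yw w) P)) := by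
        intro w
        rw [← detect hp hω, Finset.mul_sum, Finset.sum_mul]
        refine Finset.sum_congr rfl fun j _ => ?_
        ring
      rw [Finset.sum_congr rfl fun w _ => h3 w, Finset.sum_comm, Finset.mul_sum, Finset.mul_sum]
      refine Finset.sum_congr rfl fun j _ => ?_
      rw [← hmain P hP j, ← Finset.mul_sum]
      ring
    have h4 : (if P ∈ Tr then 1 / (p : ℂ) else 0) = (1 / (p : ℂ)) *
        ∑ j ∈ Finset.range p, (ω ^ j) ^ (p - 1) * (if j = 0 ∧ P ∈ Tr then 1 else 0) := by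
      by_cases hPT : P ∈ Tr
      · rw [if_pos hPT, Finset.sum_eq_single 0]
        · simp [hPT]
        · intro j _ hj; simp [hj]
        · intro h; exact absurd (Finset.mem_range.2 hp.pos) h
      · rw [if_neg hPT]; simp [hPT]
    rw [h1, h2, h4, ← mul_sub, ← Finset.sum_sub_distrib]
    simp only [← mul_sub]
    rw [norm_mul, norm_div, norm_one, Complex.norm_natCast]
    have hppos : (0 : ℝ) < p := by exact_mod_cast hp.pos
    rw [one_div, inv_mul_le_iff₀ hppos]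
    calc _ ≤ ∑ j ∈ Finset.range p,
          ‖(ω ^ j) ^ (p - 1) * (E P j - (if j = 0 ∧ P ∈ Tr then 1 else 0))‖ := norm_sum_le _ _
      _ ≤ ∑ j ∈ Finset.range p, ε := by
        refine Finset.sum_le_sum fun j hj => ?_
        rw [norm_mul, norm_pow, hωn, one_pow, one_mul]
        exact hE1 P hP j hj
      _ = p * ε := by rw [Finset.sum_const, Finset.card_range, nsmul_eq_mul]

end Pool.Agent.H60.B
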